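import Pool.Agent.H32.OP
import Pool.Agent.H32.QI

set_option autoImplicit false

namespace Pool.Agent.Results.MP_38c1f8_pr.NoInvasion

open MeasureTheory ProbabilityTheory Set Pool.Agent.H32
open scoped ENNReal

open Classical in
/-- The 2-neighbour contamination map (`true` = infected). -/
noncomputable def F {V : Type} (G : SimpleGraph V) (c : V → Bool) : V → Bool :=
  fun v => decide (c v = true ∨ 2 ≤ {w | G.Adj v w ∧ c w = true}.encard)

/-- The invasion set. -/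
def Inv {V : Type} (G : SimpleGraph V) : Set (V → Bool) := {c | ∀ v, ∃ n, (F G)^[n] c v = true}

/-- A fortress. -/
def Fortress {V : Type} (G : SimpleGraph V) (S : Finset V) : Prop :=
  S.Nonempty ∧ ∀ v ∈ S, {w | G.Adj v w ∧ w ∉ S}.encard ≤ 1

/-- Quasi-isometry of the graph metric of `G` to `ℤ²` with the `ℓ¹` (grid) metric. -/
def QIZ2 {V : Type} (G : SimpleGraph V) : Prop :=
  ∃ (f : V → ℤ × ℤ) (C K : ℕ),
    (∀ x y, |(f x).1 - (f y).1| + |(f x).2 - (f y).2| ≤ C * G.dist x y + K ∧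
      (G.dist x y : ℤ) ≤ C * (|(f x).1 - (f y).1| + |(f x).2 - (f y).2|) + K) ∧
    ∀ z : ℤ × ℤ, ∃ x, |z.1 - (f x).1| + |z.2 - (f x).2| ≤ K

abbrev W := (ℤ × ℤ) × Fin 4

def nb (x : W) (k : Fin 4) : W :=
  ![![(x.1, 1), (x.1, 2), ((x.1.1, x.1.2 + 1), 3), ((x.1.1 + 1, x.1.2 + 1), 3)],
    ![(x.1, 0), (x.1, 2), (x.1, 3), ((x.1.1 - 1, x.1.2), 2)],
    ![(x.1, 0), (x.1, 1), (x.1, 3), ((x.1.1 + 1, x.1.2), 1)],
    ![(x.1, 1), (x.1, 2), ((x.1.1, x.1.2 - 1), 0), ((x.1.1 - 1, x.1.2 - 1), 0)]] x.2 k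

def G : SimpleGraph W where
  Adj x y := ∃ k, nb x k = y
  symm := ⟨by
    rintro ⟨v, t⟩ _ ⟨k, rfl⟩
    fin_cases t <;> fin_cases k <;> simp [nb, Fin.exists_fin_succ]⟩
  loopless := ⟨by
    rintro ⟨v, t⟩ ⟨k, h⟩
    fin_cases t <;> fin_cases k <;> simp [nb] at h⟩

lemma nb_inj (x : W) : Function.Injective (nb x) := by
  obtain ⟨v, t⟩ := x
  intro a b h
  fin_cases t <;> fin_cases a <;> fin_cases b <;> simp [nb, Prod.ext_iff] at h ⊢ <;> omega

lemma two_out {S : Finset W} (h : Fortress G S) {x : W} (hx : x ∈ S) (a b : Fin 4) (hab : a ≠ b)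
    (ha : nb x a ∉ S) : nb x b ∈ S := by
  by_contra hb
  exact hab (nb_inj x (encard_le_one_iff.1 (h.2 x hx) _ _ ⟨⟨a, rfl⟩, ha⟩ ⟨⟨b, rfl⟩, hb⟩))

lemma no_fortress (S : Finset W) : ¬ Fortress G S := by
  intro h
  obtain ⟨x, hx, h1⟩ := S.exists_max_image (fun x => toLex (x.1.2, x.1.1)) h.1
  simp only [Prod.Lex.le_iff, ofLex_toLex] at h1
  obtain ⟨⟨i, l⟩, t⟩ := x
  have hu : ((i, l), 0) ∉ S := fun k => by
    have := h1 _ (two_out h k 2 3 (by decide) fun c => by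
      have := h1 _ c
      simp [nb] at this)
    simp [nb] at this
  have hb : ((i, l), 2) ∉ S := fun k => by
    have := h1 _ (two_out h k 0 3 (by decide) hu)
    simp [nb] at this
  have ha : ((i, l), 1) ∉ S := fun k => hb (two_out h k 0 1 (by decide) hu)
  have hd : ((i, l), 3) ∉ S := fun k => hb (two_out h k 0 1 (by decide) ha)
  fin_cases t
  exacts [hu hx, ha hx, hb hx, hd hx]

lemma stay (H : Set W) (hH : ∀ v ∈ H, ∃ k, ∀ j, j ≠ k → nb v j ∈ H) (c : W → Bool)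
    (hc : ∀ v ∈ H, c v = false) (n : ℕ) : ∀ v ∈ H, (F G)^[n] c v = false := by
  induction n with
  | zero => exact hc
  | succ n ih =>
    intro v hv
    obtain ⟨k, hk⟩ := hH v hv
    rw [Function.iterate_succ_apply', F, decide_eq_false_iff_not, ih v hv, not_or, not_le]
    refine ⟨by simp, lt_of_le_of_lt (encard_le_encard (t := {nb v k}) ?_) (by simp)⟩
    rintro _ ⟨⟨j, rfl⟩, h⟩
    by_cases e : j = k
    · simp [e]
    · simp [ih _ (hk j e)] at h

lemma alive {c : W → Bool} {γ δ : ℕ → ℤ} (h0 : γ 0 = 0) (k0 : δ 0 = 0)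
    (h : ∀ n, (γ (n + 1) = γ n ∨ γ (n + 1) = γ n + 1) ∧ ∀ t, ¬ c ((γ n, n), t) = true)
    (k : ∀ n, (δ (n + 1) = δ n ∨ δ (n + 1) = δ n + 1) ∧ ∀ t, ¬ c ((-δ n, -n), t) = true) :
    c ∉ Inv G := by
  let A : Set (ℤ × ℤ) := {x | ∃ n : ℕ, x = (γ n, (n : ℤ)) ∨ x = (-δ n, -(n : ℤ))}
  have up : ∀ x ∈ A, (x.1, x.2 + 1) ∈ A ∨ (x.1 + 1, x.2 + 1) ∈ A := by
    have u1 : ∀ n : ℕ, (γ n, (n : ℤ) + 1) ∈ A ∨ (γ n + 1, (n : ℤ) + 1) ∈ A := fun n =>
      (h n).1.imp (fun e => ⟨n + 1, .inl (by simp [e])⟩) fun e => ⟨n + 1, .inl (by simp [e])⟩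
    rintro _ ⟨n, rfl | rfl⟩
    · exact u1 n
    · cases n with
      | zero => simpa [h0, k0] using u1 0
      | succ n =>
        exact (k n).1.imp (fun e => ⟨n, .inr (by simp [e])⟩) fun e => ⟨n, .inr (by simp [e])⟩
  have dn : ∀ x ∈ A, (x.1, x.2 - 1) ∈ A ∨ (x.1 - 1, x.2 - 1) ∈ A := by
    have u1 : ∀ n : ℕ, (-δ n, -(n : ℤ) - 1) ∈ A ∨ (-δ n - 1, -(n : ℤ) - 1) ∈ A := fun n =>
      (k n).1.imp (fun e => ⟨n + 1, .inr (by rw [e, Prod.mk.injEq]; omega)⟩)
        fun e => ⟨n + 1, .inr (by simp only [e, Prod.mk.injEq]; omega)⟩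
    rintro _ ⟨n, rfl | rfl⟩
    · cases n with
      | zero => simpa [h0, k0] using u1 0
      | succ n =>
        exact (h n).1.imp (fun e => ⟨n, .inl (by simp [e])⟩) fun e => ⟨n, .inl (by simp [e])⟩
    · exact u1 n
  intro hI
  obtain ⟨n, hn⟩ := hI ((γ 0, 0), 0)
  rw [stay {x | x.1 ∈ A} ?_ c ?_ n _ ⟨0, .inl rfl⟩] at hn
  · simp at hn
  · rintro ⟨x, t⟩ hx
    have hx' : x ∈ A := hx
    fin_cases t
    · rcases up x hx with e | e
      · exact ⟨3, fun j hj => by fin_cases j <;> simp_all [nb]⟩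
      · exact ⟨2, fun j hj => by fin_cases j <;> simp_all [nb]⟩
    · exact ⟨3, fun j hj => by fin_cases j <;> simp_all [nb]⟩
    · exact ⟨3, fun j hj => by fin_cases j <;> simp_all [nb]⟩
    · rcases dn x hx with e | e
      · exact ⟨3, fun j hj => by fin_cases j <;> simp_all [nb]⟩
      · exact ⟨2, fun j hj => by fin_cases j <;> simp_all [nb]⟩
  · rintro ⟨x, t⟩ ⟨n, rfl | rfl⟩
    · simpa using (h n).2 t
    · simpa using (k n).2 t

theorem result : ∃ (V : Type) (G : SimpleGraph V), Infinite V ∧ G.Connected ∧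
    (∀ v, (G.neighborSet v).encard = 4) ∧ QIZ2 G ∧ (∀ S, ¬ Fortress G S) ∧
    ∃ p : unitInterval, 0 < p ∧ p < 1 ∧
      Measure.infinitePi (fun _ : V => bernoulliMeasure true false p) (Inv G) < 1 := by
  have e1 : ∀ x k, G.Adj x (nb x k) := fun x k => ⟨k, rfl⟩
  have hq := QI.qi G Prod.fst (fun v => (v, 1)) 3 (fun ⟨v, t⟩ => by
      fin_cases t
      · exact (SimpleGraph.edist_le (.cons (e1 (v, 0) 0) .nil)).trans (by norm_num)
      · simp
      · exact (SimpleGraph.edist_le (.cons (e1 (v, 2) 1) .nil)).trans (by norm_num)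
      · exact (SimpleGraph.edist_le (.cons (e1 (v, 3) 0) .nil)).trans (by norm_num))
    (fun v => ⟨(SimpleGraph.edist_le (.cons (e1 (v, 1) 1) (.cons (e1 (v, 2) 3) .nil))).trans
      (by norm_num), SimpleGraph.edist_le (.cons (e1 (v, 1) 0) (.cons (e1 (v, 0) 2)
        (.cons (e1 ((v.1, v.2 + 1), 3) 0) .nil)))⟩)
    (by
      rintro ⟨v, t⟩ _ ⟨k, rfl⟩
      fin_cases t <;> fin_cases k <;> simp [nb])
  let p : unitInterval := ⟨1 / 12 ^ 3, by norm_num, by norm_num⟩
  refine ⟨W, G, inferInstance, hq.1, fun v => ?_, ⟨Prod.fst, 3, 6, fun x y => ?_,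
    fun z => ⟨(z, 0), by simp⟩⟩, no_fortress, p, Subtype.mk_lt_mk.2 (by norm_num),
    Subtype.mk_lt_mk.2 (by norm_num), ?_⟩
  · rw [show G.neighborSet v = nb v '' univ from Set.ext fun y => by simp [G],
      (nb_inj v).encard_image]
    simp
  · have := hq.2 x y
    push_cast at this ⊢
    constructor <;> linarith [this.1, this.2]
  have hb := fun (φ : W → W) (hφ : Function.Injective φ) => OP.op_bound
    (Measure.infinitePi fun _ : W => bernoulliMeasure true false p) (fun c b => c (φ b) = true) 12⁻¹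
    fun S => by
      have := OP.prod_blocks (fun _ : W => bernoulliMeasure true false p) (fun b => {φ b})
        (fun a b h => by simpa using hφ.ne h) (fun b => (fun c => c (φ b)) ⁻¹' {true})
        (fun b => measurable_pi_apply _ (measurableSet_singleton _))
        (fun b c c' h k => (h _ rfl).symm.trans k) S
      refine (le_of_eq (congrArg _ (Set.ext fun c => by simp))).trans (this.le.trans
        (Finset.prod_le_pow_card _ _ _ fun b _ => le_of_eq ?_))
      rw [← Measure.map_apply (measurable_pi_apply _) (measurableSet_singleton _),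
        Measure.infinitePi_map_eval, bernoulliMeasure_apply _ (measurableSet_singleton _),
        ← ENNReal.toReal_eq_toReal_iff' (by simp) (by finiteness)]
      simp [p]
  have h3 : (12⁻¹ : ℝ≥0∞) ^ 2 * (1 - (2 + (Fintype.card (Fin 4) : ℝ≥0∞)) * 12⁻¹)⁻¹ ≤ 4⁻¹ := by
    rw [show (2 + Fintype.card (Fin 4) : ℝ≥0∞) * 12⁻¹ = 2⁻¹ by
      rw [← ENNReal.toReal_eq_toReal_iff' (by finiteness) (by finiteness)]
      simp [ENNReal.toReal_add]
      norm_num, ENNReal.one_sub_inv_two, inv_inv,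
      ← ENNReal.toReal_le_toReal (by finiteness) (by finiteness)]
    simp
    norm_num
  have h4 := (measure_union_le _ _).trans (add_le_add ((hb id Function.injective_id).trans h3)
    ((hb (fun b => (-b.1, b.2)) fun a b h => by simpa [Prod.ext_iff] using h).trans h3))
  refine ((measure_mono fun c hc => ?_).trans h4).trans_lt (by
    rw [← ENNReal.toReal_lt_toReal (by finiteness) (by finiteness)]
    simp [ENNReal.toReal_add]
    norm_num)
  by_contra k
  simp only [mem_union, mem_ofPred_eq, not_or, not_not] at k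
  obtain ⟨⟨γ, a0, a1⟩, δ, b0, b1⟩ := k
  exact alive a0 b0 a1 b1 hc

end Pool.Agent.Results.MP_38c1f8_pr.NoInvasion
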